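import Pool.Agent.MP_149452_an.Main

/-!
# Fine approximation by real analytic functions on `c_0`

For every continuous `f : c_0 → ℝ` and every continuous `δ : c_0 → (0, ∞)` there is a real analytic
`g : c_0 → ℝ` with `|f x - g x| < δ x` for all `x`.  The constant case `δ = ε` is the main theorem
of `Pool.Agent.MP_149452_an.Main`.
-/

set_option autoImplicit false

namespace Pool.Agent.Results.MP_149452_an.FineApproximation

/-- **Fine approximation on `c_0`.** `c_0` is the space of real functions on `ℕ` which tend to zero,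
with the supremum norm. -/
theorem result (f δ : ZeroAtInftyContinuousMap ℕ ℝ → ℝ) (hf : Continuous f) (hδ : Continuous δ)
    (hpos : ∀ x, 0 < δ x) :
    ∃ g : ZeroAtInftyContinuousMap ℕ ℝ → ℝ,
      (∀ x, AnalyticAt ℝ g x) ∧ ∀ x, |f x - g x| < δ x := by
  -- an analytic function which is larger than `1 / δ`
  have h1 : Continuous fun x => (δ x)⁻¹ + 1 :=
    (hδ.inv₀ fun x => (hpos x).ne').add continuous_const
  obtain ⟨φ, hφa, hφ⟩ := Pool.Agent.MP_149452_an.main h1 one_pos
  have hφδ : ∀ x, (δ x)⁻¹ < φ x := by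
    intro x
    have h2 := (abs_lt.1 (hφ x)).2
    linarith
  have hφ0 : ∀ x, 0 < φ x := fun x => lt_trans (inv_pos.2 (hpos x)) (hφδ x)
  have hφc : Continuous φ := continuous_iff_continuousAt.2 fun x => (hφa x).continuousAt
  obtain ⟨G, hGa, hG⟩ := Pool.Agent.MP_149452_an.main (hf.mul hφc) one_pos
  refine ⟨fun x => G x / φ x, fun x => (hGa x).div (hφa x) (hφ0 x).ne', fun x => ?_⟩
  have h3 : f x - G x / φ x = (f x * φ x - G x) / φ x := by
    have := (hφ0 x).ne'
    field_simp
  rw [h3, abs_div, abs_of_pos (hφ0 x), div_lt_iff₀ (hφ0 x)]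
  have h4 : |f x * φ x - G x| < 1 := hG x
  have h5 : 1 < δ x * φ x := by
    have h6 := mul_lt_mul_of_pos_left (hφδ x) (hpos x)
    rwa [mul_inv_cancel₀ (hpos x).ne'] at h6
  exact h4.trans h5

end Pool.Agent.Results.MP_149452_an.FineApproximation
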